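import Pool.Agent.N119.PS.Stm2

/-!
Project PSC2 (helper119): rescaling a tree (helper478).
-/

set_option autoImplicit false

namespace Pool.Agent.N478.PSC

open Pool.Agent.H472R3

/-- A copy of `T`. -/
structure Sc (T : Type) : Type where
  /-- the point -/
  pt : T

/-- The rescaled metric. -/
noncomputable def scMetric (T : Type) [MetricSpace T] (c : ℝ) (hc : 0 < c) : MetricSpace (Sc T) where
  dist a b := c * dist a.pt b.pt
  dist_self a := by
    show c * dist a.pt a.pt = 0
    rw [dist_self, mul_zero]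
  dist_comm a b := by
    show c * dist a.pt b.pt = c * dist b.pt a.pt
    rw [dist_comm]
  dist_triangle a b d := by
    show c * dist a.pt d.pt ≤ c * dist a.pt b.pt + c * dist b.pt d.pt
    rw [← mul_add]
    exact mul_le_mul_of_nonneg_left (dist_triangle _ _ _) hc.le
  eq_of_dist_eq_zero {a b} h := by
    have h1 : c * dist a.pt b.pt = 0 := h
    have h2 : dist a.pt b.pt = 0 := (mul_eq_zero.mp h1).resolve_left hc.ne'
    obtain ⟨a⟩ := a
    obtain ⟨b⟩ := b
    exact congrArg Sc.mk (dist_eq_zero.mp h2)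

/-- The rescaled action. -/
def scAction (T G : Type) [Group G] [MulAction G T] : MulAction G (Sc T) where
  smul g a := ⟨g • a.pt⟩
  one_smul a := congrArg Sc.mk (one_smul G a.pt)
  mul_smul g h a := congrArg Sc.mk (mul_smul g h a.pt)

/-- The rescaled tree is a tree. -/
theorem scTree {T : Type} [MetricSpace T] (hT : IsRTree T) (c : ℝ) (hc : 0 < c) :
    @IsRTree (Sc T) (scMetric T c hc) := by
  letI := scMetric T c hc
  have hd : ∀ a b : Sc T, dist a b = c * dist a.pt b.pt := fun _ _ => rfl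
  refine ⟨hT.nonempty.map Sc.mk, fun x y => ?_, fun x y z w => ?_⟩
  · obtain ⟨γ, h0, h1, h2⟩ := hT.geodesic x.pt y.pt
    refine ⟨fun s => ⟨γ (s / c)⟩, ?_, ?_, ?_⟩
    · show (⟨γ (0 / c)⟩ : Sc T) = x
      rw [zero_div, h0]
    · show (⟨γ (dist x y / c)⟩ : Sc T) = y
      rw [hd, mul_div_cancel_left₀ _ hc.ne', h1]
    · intro s hs t ht
      rw [hd] at hs ht
      have h3 : ∀ u ∈ Set.Icc 0 (c * dist x.pt y.pt), u / c ∈ Set.Icc 0 (dist x.pt y.pt) := by
        intro u hu
        refine ⟨div_nonneg hu.1 hc.le, ?_⟩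
        rw [div_le_iff₀ hc, mul_comm]
        exact hu.2
      rw [hd]
      show c * dist (γ (s / c)) (γ (t / c)) = |s - t|
      rw [h2 _ (h3 s hs) _ (h3 t ht), ← sub_div, abs_div, abs_of_pos hc,
        mul_div_cancel₀ _ hc.ne']
  · rw [hd, hd, hd, hd, hd, hd, ← mul_add, ← mul_add, ← mul_add,
      ← mul_max_of_nonneg _ _ hc.le]
    exact mul_le_mul_of_nonneg_left (hT.zeroHyperbolic _ _ _ _) hc.le

/-- The rescaled tree with the action. -/
noncomputable def scF {N : ℕ} (A : FTree N) (c : ℝ) (hc : 0 < c) : FTree N where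
  T := Sc A.T
  metric := scMetric A.T c hc
  action := scAction A.T (FreeGroup (Fin N))
  isometric g x y := by
    show c * dist (g • x.pt) (g • y.pt) = c * dist x.pt y.pt
    rw [A.isometric]
  isRTree := scTree A.isRTree c hc

/-- **SCL.** -/
theorem t : Pool.Agent.N119.PS.S_SCL := by
  intro N A c hA hc
  have hd : ∀ a b : (scF A c hc).T, dist a b = c * dist (Sc.pt a) (Sc.pt b) := fun _ _ => rfl
  have ha : ∀ (g : FreeGroup (Fin N)) (a : (scF A c hc).T), Sc.pt (g • a) = g • Sc.pt a :=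
    fun _ _ => rfl
  let f : A.T ≃ (scF A c hc).T :=
    { toFun := fun x => (⟨x⟩ : Sc A.T)
      invFun := fun x => Sc.pt x
      left_inv := fun _ => rfl
      right_inv := fun _ => rfl }
  have hdf : ∀ x y, dist (f x) (f y) = c * dist x y := fun _ _ => rfl
  have haf : ∀ (g : FreeGroup (Fin N)) x, f (g • x) = g • f x := fun _ _ => rfl
  refine ⟨scF A c hc, f, ⟨?_, ?_, ?_⟩, ?_, hdf, haf⟩
  · intro g x hx
    exact hA.1 g (Sc.pt x) (congrArg Sc.pt hx)
  · intro Y hY h1 h2
    have h3 := hA.2.1 (f ⁻¹' Y) ?_ ?_ ?_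
    · refine Set.eq_univ_of_forall fun x => ?_
      have h4 : (Sc.pt x : A.T) ∈ f ⁻¹' Y := by
        rw [h3]
        trivial
      exact h4
    · obtain ⟨y, hy⟩ := hY
      exact ⟨f.symm y, by rwa [Set.mem_preimage, Equiv.apply_symm_apply]⟩
    · intro x hx y hy z hz
      refine h1 _ hx _ hy _ ?_
      rw [hdf, hdf, hdf, ← mul_add, hz]
    · intro g y hy
      have h5 := h2 g _ hy
      rwa [← haf] at h5
  · intro x
    obtain ⟨ε, hε, h1⟩ := hA.2.2 (Sc.pt x)
    refine ⟨c * ε, mul_pos hc hε, fun g hg => ?_⟩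
    rw [hd, ha]
    refine mul_le_mul_of_nonneg_left (h1 g fun h2 => hg ?_) hc.le
    have h3 : f (g • Sc.pt x) = f (Sc.pt x) := congrArg f h2
    exact h3
  · intro g
    have h1 : (scF A c hc).len g = ⨅ x : A.T, c * dist x (g • x) := by
      unfold FTree.len
      rw [← f.surjective.iInf_comp]
      rfl
    rw [h1]
    unfold FTree.len
    rw [Real.mul_iInf_of_nonneg hc.le]

end Pool.Agent.N478.PSC
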